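import Pool.Agent.H8.VertDom

namespace Pool.Agent.Results.MP_1c7d4c_an.NotD

open Polynomial Finset Pool.Agent.H8.VertDom

set_option maxRecDepth 100000

noncomputable def r (i : ℕ) : ℝ :=
  if i = 0 then 105 / 2000 else if i = 1 then 327 / 2000 else 1519 / 2000 - (i : ℝ) / 1000000

lemma r_big (i : ℕ) (hi : i < 30) :
    1519 / 2000 - 32 / 1000000 ≤ r (i + 1 + 1) ∧ r (i + 1 + 1) ≤ 1519 / 2000 := by
  unfold r
  rw [if_neg (by omega), if_neg (by omega)]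
  have h1 : (i : ℝ) ≤ 30 := by exact_mod_cast hi.le
  have h0 : (0 : ℝ) ≤ i := Nat.cast_nonneg i
  push_cast
  constructor <;> linarith

lemma r0 : r 0 = 105 / 2000 := by simp [r]
lemma r1 : r (0 + 1) = 327 / 2000 := by simp [r]

lemma r_bd (i : ℕ) (hi : i < 32) : 0 < r i ∧ r i ≤ 1519 / 2000 := by
  rcases i with _ | _ | i
  · rw [r0]; constructor <;> norm_num
  · rw [r1]; constructor <;> norm_num
  · obtain ⟨a, b⟩ := r_big i (by omega)
    constructor <;> linarith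

lemma r_inj : Set.InjOn r (range 32 : Finset ℕ) := by
  intro i hi j hj h
  have hi' : (i : ℝ) < 32 := by exact_mod_cast mem_range.1 hi
  have hj' : (j : ℝ) < 32 := by exact_mod_cast mem_range.1 hj
  unfold r at h
  split_ifs at h
  all_goals first
    | omega
    | (exfalso; linarith)
    | (have : (i : ℝ) = j := by linarith
       exact_mod_cast this)

noncomputable def Z : Finset ℝ := (range 32).image r ∪ (range 32).image (fun i => -r i)

lemma prodZ {M : Type*} [CommMonoid M] (f : ℝ → M) :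
    ∏ z ∈ Z, f z = ∏ i ∈ range 32, (f (r i) * f (-r i)) := by
  unfold Z
  rw [prod_union, prod_image r_inj, prod_image (fun i hi j hj h => r_inj hi hj (neg_injective h)),
    prod_mul_distrib]
  rw [disjoint_left]
  intro a ha hb
  obtain ⟨i, hi, rfl⟩ := mem_image.1 ha
  obtain ⟨j, hj, h⟩ := mem_image.1 hb
  have := (r_bd i (mem_range.1 hi)).1
  have := (r_bd j (mem_range.1 hj)).1
  linarith

noncomputable def Q : ℝ[X] := ∏ z ∈ Z, (X - C z)

lemma taylorQ (x : ℝ) : taylor x Q = ∏ i ∈ range 32, quad 1 (2 * x) (x ^ 2 - r i ^ 2) := by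
  unfold Q
  rw [prodZ]
  have := map_prod (taylorAlgHom x) (fun i => (X - C (r i)) * (X - C (-r i))) (range 32)
  simp only [taylorAlgHom_apply] at this
  rw [this]
  refine prod_congr rfl fun i _ => ?_
  rw [taylor_mul, map_sub, map_sub, taylor_X, taylor_C, taylor_C]
  simp only [quad, C_1, C_mul, C_sub, C_pow, C_neg, map_ofNat]
  ring

lemma scaled (x : ℝ) : C ((4000000 : ℝ) ^ 32) * taylor x Q =
    (∏ i ∈ range 30, quad 4000000 (8000000 * x) (4000000 * (x ^ 2 - r (i + 1 + 1) ^ 2))) *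
      quad 4000000 (8000000 * x) (4000000 * (x ^ 2 - r (0 + 1) ^ 2)) *
      quad 4000000 (8000000 * x) (4000000 * (x ^ 2 - r 0 ^ 2)) := by
  rw [← prod_range_succ' (fun i => quad 4000000 (8000000 * x) (4000000 * (x ^ 2 - r (i + 1) ^ 2))) 30,
    ← prod_range_succ' (fun i => quad 4000000 (8000000 * x) (4000000 * (x ^ 2 - r i ^ 2))) 31,
    taylorQ, C_pow]
  have : (C (4000000 : ℝ)) ^ 32 = ∏ _i ∈ range 32, C (4000000 : ℝ) := by
    rw [prod_const, card_range]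
  rw [this, ← prod_mul_distrib]
  refine prod_congr rfl fun i _ => ?_
  have e : (8000000 : ℝ) * x = 4000000 * (2 * x) := by ring
  rw [e]
  simp only [quad, C_1, C_mul]
  ring

lemma build_eq (a c1 c2 c3 : ℕ) : toPoly (build a c1 c2 c3) =
    (∏ _i ∈ range 30, quad 4000000 a c3) * quad 4000000 a c2 * quad 4000000 a c1 := by
  rw [build, toPoly_mulq, toPoly_mulq, toPoly_powq, prod_const, card_range]
  ring

lemma cen_bd (a j : ℕ) (x : ℝ) (h1 : (10 * j : ℝ) ≤ 2000 * |x|) (h2 : 2000 * |x| ≤ 10 * j + 10) :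
    |4000000 * (x ^ 2 - ((a : ℝ) / 2000) ^ 2)| ≤ (cen a j : ℝ) := by
  have e : x ^ 2 = |x| ^ 2 := (sq_abs x).symm
  have s1 : ∀ p q : ℕ, (p : ℝ) - q ≤ ((p - q : ℕ) : ℝ) := by
    intro p q
    rcases le_total q p with h | h
    · rw [Nat.cast_sub h]
    · have : (p : ℝ) ≤ q := by exact_mod_cast h
      linarith [(Nat.cast_nonneg (p - q) : (0 : ℝ) ≤ ((p - q : ℕ) : ℝ))]
  have b1 := s1 (a * a) ((10 * j) * (10 * j))
  have b2 := s1 ((10 * j + 10) * (10 * j + 10)) (a * a)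
  have m1 : ((a * a - (10 * j) * (10 * j) : ℕ) : ℝ) ≤ (cen a j : ℝ) := by
    exact_mod_cast le_max_left _ _
  have m2 : (((10 * j + 10) * (10 * j + 10) - a * a : ℕ) : ℝ) ≤ (cen a j : ℝ) := by
    exact_mod_cast le_max_right _ _
  have hj : (0 : ℝ) ≤ j := Nat.cast_nonneg j
  have q1 : (10 * j : ℝ) * (10 * j) ≤ (2000 * |x|) * (2000 * |x|) :=
    mul_self_le_mul_self (by positivity) h1
  have q2 : (2000 * |x|) * (2000 * |x|) ≤ (10 * j + 10 : ℝ) * (10 * j + 10) :=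
    mul_self_le_mul_self (by positivity) h2
  rw [Nat.cast_mul, Nat.cast_mul] at b1 b2
  push_cast at b1 b2
  rw [e, abs_le]
  constructor <;> nlinarith

lemma clus_bd (j : ℕ) (hj : j < 80) (x ρ : ℝ) (h1 : (j : ℝ) ≤ 200 * |x|) (h : |x| < 2 / 5)
    (a : 1519 / 2000 - 32 / 1000000 ≤ ρ) (b : ρ ≤ 1519 / 2000) :
    |4000000 * (x ^ 2 - ρ ^ 2)| ≤ ((1519 * 1519 - (10 * j) * (10 * j) : ℕ) : ℝ) := by
  have e : x ^ 2 = |x| ^ 2 := (sq_abs x).symm
  have x0 := abs_nonneg x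
  have hle : (10 * j) * (10 * j) ≤ 1519 * 1519 := Nat.mul_le_mul (by omega) (by omega)
  rw [Nat.cast_sub hle]
  push_cast
  have q1 : (10 * j : ℝ) * (10 * j) ≤ (2000 * |x|) * (2000 * |x|) :=
    mul_self_le_mul_self (by positivity) (by linarith)
  have q2 : ρ ^ 2 ≤ (1519 / 2000) ^ 2 := pow_le_pow_left₀ (by linarith) b 2
  have q3 : |x| ^ 2 ≤ ρ ^ 2 := pow_le_pow_left₀ x0 (by linarith) 2
  rw [e, abs_of_nonpos (by linarith)]
  nlinarith

lemma top_bd (ρ : ℝ) (a : 0 ≤ ρ) (b : ρ ≤ 1519 / 2000) :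
    |((4000000 - 1519 * 1519 : ℕ) : ℝ)| ≤ 4000000 * (1 ^ 2 - ρ ^ 2) := by
  have q2 : ρ ^ 2 ≤ (1519 / 2000) ^ 2 := pow_le_pow_left₀ a b 2
  norm_num
  linarith

lemma domQ (x : ℝ) (hx : |x| ≤ 1) : Dom (taylor x Q) (taylor 1 Q) := by
  have e : x ^ 2 = |x| ^ 2 := (sq_abs x).symm
  have x0 := abs_nonneg x
  rcases le_or_gt (2 / 5) |x| with h | h
  · rw [taylorQ, taylorQ]
    refine dom_prod _ _ _ fun i hi => dom_quad (by simp) ?_ ?_
    · rw [abs_mul]; simp only [Nat.abs_ofNat]; linarith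
    · obtain ⟨a, b⟩ := r_bd i (mem_range.1 hi)
      rw [e, abs_le]
      constructor <;> nlinarith
  · refine Dom.unscale (c := (4000000 : ℝ) ^ 32) (by positivity) ?_
    rw [scaled, scaled]
    set j := ⌊200 * |x|⌋₊ with hj
    have h1 : (j : ℝ) ≤ 200 * |x| := Nat.floor_le (by positivity)
    have h2 : 200 * |x| < j + 1 := Nat.lt_floor_add_one _
    have hj80 : j < 80 := by
      have : (j : ℝ) < 80 := by linarith
      exact_mod_cast this
    have g1 : (10 * j : ℝ) ≤ 2000 * |x| := by linarith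
    have g2 : 2000 * |x| ≤ 10 * j + 10 := by linarith
    have la : |8000000 * x| ≤ ((4000 * (10 * j + 10) : ℕ) : ℝ) := by
      rw [abs_mul]; push_cast; simp only [Nat.abs_ofNat]; linarith
    have hc : chk j = true := List.all_eq_true.1 chk_all j (List.mem_range.2 hj80)
    have d := dom_of_leL _ _ hc
    rw [build_eq, build_eq] at d
    have n4 : |(4000000 : ℝ)| ≤ 4000000 := by simp
    have n8 : |((8000000 : ℕ) : ℝ)| ≤ 8000000 * 1 := by simp
    refine Dom.trans (Dom.mul (Dom.mul (dom_prod _ _ _ fun i hi => dom_quad n4 la ?_)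
      (dom_quad n4 la ?_)) (dom_quad n4 la ?_)) (d.trans (Dom.mul (Dom.mul
      (dom_prod _ _ _ fun i hi => dom_quad n4 n8 ?_) (dom_quad n4 n8 ?_)) (dom_quad n4 n8 ?_)))
    · obtain ⟨a, b⟩ := r_big i (mem_range.1 hi)
      exact clus_bd j hj80 x _ h1 h a b
    · rw [r1]
      have := cen_bd 327 j x g1 g2
      rwa [Nat.cast_ofNat] at this
    · rw [r0]
      have := cen_bd 105 j x g1 g2
      rwa [Nat.cast_ofNat] at this
    · obtain ⟨a, b⟩ := r_big i (mem_range.1 hi)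
      exact top_bd _ (le_trans (by norm_num) a) b
    · rw [r1]; norm_num
    · rw [r0]; norm_num

lemma der_eval (k : ℕ) (x : ℝ) :
    (derivative^[k] Q).eval x = (k.factorial : ℝ) * (taylor x Q).coeff k := by
  rw [taylor_coeff, ← factorial_smul_hasseDeriv]
  simp

lemma normsq (s y : ℝ) : ‖aeval ((s : ℂ) + y * Complex.I) Q‖ ^ 2 =
    ∏ i ∈ range 32, ((s ^ 2 - y ^ 2 - r i ^ 2) ^ 2 + 4 * s ^ 2 * y ^ 2) := by
  unfold Q
  rw [prodZ, map_prod, norm_prod, ← prod_pow]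
  refine prod_congr rfl fun i _ => ?_
  rw [Complex.sq_norm, Complex.normSq_apply]
  simp
  ring

theorem result :
    ∃ Z : Finset ℝ, Z.Nonempty ∧ (∀ z ∈ Z, z ∈ Set.Icc (-1 : ℝ) 1) ∧ (∀ z ∈ Z, -z ∈ Z) ∧
      (∀ k : ℕ, ∀ x ∈ Set.Ioo (-1 : ℝ) 1,
        |(derivative^[k] (∏ z ∈ Z, (X - C z) : ℝ[X])).eval x| ≤
          (derivative^[k] (∏ z ∈ Z, (X - C z) : ℝ[X])).eval 1) ∧
      ∃ x ∈ Set.Icc (-1 : ℝ) 1, ∃ y : ℝ,
        ‖aeval (((1 : ℝ) : ℂ) + y * Complex.I) (∏ z ∈ Z, (X - C z) : ℝ[X])‖ <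
          ‖aeval ((x : ℂ) + y * Complex.I) (∏ z ∈ Z, (X - C z) : ℝ[X])‖ := by
  refine ⟨Z, ⟨r 0, mem_union_left _ (mem_image_of_mem _ (by simp))⟩, ?_, ?_, ?_, 0,
    ⟨by norm_num, by norm_num⟩, 55 / 1000, ?_⟩
  · intro z hz
    rcases mem_union.1 hz with h | h
    · obtain ⟨i, hi, rfl⟩ := mem_image.1 h
      obtain ⟨a, b⟩ := r_bd i (mem_range.1 hi)
      constructor <;> linarith
    · obtain ⟨i, hi, rfl⟩ := mem_image.1 h
      obtain ⟨a, b⟩ := r_bd i (mem_range.1 hi)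
      constructor <;> linarith
  · intro z hz
    rcases mem_union.1 hz with h | h
    · obtain ⟨i, hi, rfl⟩ := mem_image.1 h
      exact mem_union_right _ (mem_image.2 ⟨i, hi, rfl⟩)
    · obtain ⟨i, hi, rfl⟩ := mem_image.1 h
      exact mem_union_left _ (mem_image.2 ⟨i, hi, by simp⟩)
  · intro k x hx
    change |(derivative^[k] Q).eval x| ≤ (derivative^[k] Q).eval 1
    rw [der_eval, der_eval, abs_mul, abs_of_nonneg (Nat.cast_nonneg _)]
    exact mul_le_mul_of_nonneg_left (domQ x (abs_le.2 ⟨hx.1.le, hx.2.le⟩) k) (Nat.cast_nonneg _)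
  · change ‖aeval (((1 : ℝ) : ℂ) + ((55 / 1000 : ℝ) : ℂ) * Complex.I) Q‖ <
      ‖aeval (((0 : ℝ) : ℂ) + ((55 / 1000 : ℝ) : ℂ) * Complex.I) Q‖
    refine lt_of_pow_lt_pow_left₀ 2 (norm_nonneg _) ?_
    rw [normsq, normsq, prod_range_succ', prod_range_succ', prod_range_succ' _ 31, prod_range_succ' _ 30,
      r0, r1]
    have u : ∏ i ∈ range 30, (((1 : ℝ) ^ 2 - (55 / 1000) ^ 2 - r (i + 1 + 1) ^ 2) ^ 2 + 4 * 1 ^ 2 * (55 / 1000) ^ 2)
        ≤ ∏ _i ∈ range 30, (((1 : ℝ) - (55 / 1000) ^ 2 - (1519 / 2000 - 32 / 1000000) ^ 2) ^ 2 + 4 * (55 / 1000) ^ 2) := by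
      refine prod_le_prod (fun i _ => by positivity) fun i hi => ?_
      obtain ⟨a, b⟩ := r_big i (mem_range.1 hi)
      have c : ((1 : ℝ) ^ 2 - (55 / 1000) ^ 2 - r (i + 1 + 1) ^ 2) ^ 2 ≤
          ((1 : ℝ) - (55 / 1000) ^ 2 - (1519 / 2000 - 32 / 1000000) ^ 2) ^ 2 :=
        pow_le_pow_left₀ (by nlinarith) (by nlinarith) 2
      linarith
    have l : ∏ _i ∈ range 30, (((55 : ℝ) / 1000) ^ 2 + (1519 / 2000 - 32 / 1000000) ^ 2) ^ 2 ≤
        ∏ i ∈ range 30, (((0 : ℝ) ^ 2 - (55 / 1000) ^ 2 - r (i + 1 + 1) ^ 2) ^ 2 + 4 * 0 ^ 2 * (55 / 1000) ^ 2) := by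
      refine prod_le_prod (fun i _ => by positivity) fun i hi => ?_
      obtain ⟨a, b⟩ := r_big i (mem_range.1 hi)
      have c : (((55 : ℝ) / 1000) ^ 2 + (1519 / 2000 - 32 / 1000000) ^ 2) ^ 2 ≤
          ((55 / 1000) ^ 2 + r (i + 1 + 1) ^ 2) ^ 2 :=
        pow_le_pow_left₀ (by positivity) (by nlinarith) 2
      nlinarith
    rw [prod_const, card_range] at u l
    refine lt_of_le_of_lt (mul_le_mul_of_nonneg_right (mul_le_mul_of_nonneg_right u (by positivity))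
      (by positivity)) (lt_of_lt_of_le ?_ (mul_le_mul_of_nonneg_right
      (mul_le_mul_of_nonneg_right l (by positivity)) (by positivity)))
    norm_num

end Pool.Agent.Results.MP_1c7d4c_an.NotD
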